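import Pool.Agent.Y939.SC.Generic

/-!
# Nagata's inequality and Waldschmidt constants for generic clusters of infinitely near points

Let `k` be any field, `r_1, ..., r_s ≥ 1` and let `q_i` be a polynomial of degree less than `r_i`
over `k`. The `i`-th cluster consists of the first `r_i` points of the smooth curve germ `y = q_i(x)`
at `x = c_i` (the point `(c_i : q_i(c_i) : 1)` of the plane and `r_i - 1` points infinitely near to
it); its ideal of polynomials of multiplicity `m` at all the `r_i` points is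
`(y - q_i(x), (x - c_i) ^ r_i) ^ m`. Assume that all the parameters `c_i` and the coefficients of the
`q_i` are algebraically independent over the prime field of `k`, and put `n = r_1 + ... + r_s > 9`.

* The least degree `a(m)` of a nonzero form of multiplicity at least `m` along all clusters satisfies
  `a(m) / m → √n`, and more precisely `m √n < a(m) ≤ (m + 1) √n` for all `m > 0`.
* For arbitrary multiplicities `w_i`, not all zero, a nonzero form of degree `d` in the intersection
  of the ideals `(y - q_i(x), (x - c_i) ^ r_i) ^ w_i` satisfies `∑ r_i w_i < d √n`.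

For `r_1 = ... = r_s = 1` the clusters are `s = n` generic points and this is Q1 (over every field,
with strict inequalities as Nagata conjectured them).
-/

set_option autoImplicit false

namespace Pool.Agent.Results.MP_d0dfcd_ag.GenericClusters

open Polynomial Filter Topology

universe u

/-- the ideal `(y - q(x), (x - c) ^ r) ^ m` of `k[x][y]`, where `q = ∑ a_j x ^ j`, `j < r`; for
`r = 1` this is the `m`-th power of the ideal of the point `(c, a_0)` -/
noncomputable def cluster {k : Type u} [Field k] (r m : ℕ) (c : k) (a : Fin r → k) :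
    Ideal k[X][X] :=
  (Ideal.span {X - C (∑ j : Fin r, C (a j) * X ^ (j : ℕ)), C ((X - C c) ^ r)}) ^ m

/-- the polynomial `P(x, y, 1)` of `k[x][y]` -/
noncomputable def affine {k : Type u} [Field k] (P : MvPolynomial (Fin 3) k) : k[X][X] :=
  MvPolynomial.aeval ![C X, X, 1] P

/-- the least degree of a nonzero form of multiplicity at least `m` along all the clusters -/
noncomputable def leastDegree {k : Type u} [Field k] {s : ℕ} {r : Fin s → ℕ} (c : Fin s → k)
    (a : (i : Fin s) → Fin (r i) → k) (m : ℕ) : ℕ :=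
  sInf {d | ∃ P : MvPolynomial (Fin 3) k, P.IsHomogeneous d ∧ P ≠ 0 ∧
    ∀ i, affine P ∈ cluster (r i) m (c i) (a i)}

/-- the parameters `c_i, a_i0, ..., a_i(r_i-1)` of all the clusters are algebraically independent
over the prime field `⊥` of `k` -/
def Generic {k : Type u} [Field k] {s : ℕ} {r : Fin s → ℕ} (c : Fin s → k)
    (a : (i : Fin s) → Fin (r i) → k) : Prop :=
  AlgebraicIndependent (⊥ : Subfield k)
    (fun q : (i : Fin s) × Fin (r i + 1) => (Fin.cons (c q.1) (a q.1) : Fin (r q.1 + 1) → k) q.2)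

theorem result (k : Type u) [Field k] {s : ℕ} (r : Fin s → ℕ) (hr : ∀ i, 1 ≤ r i)
    (hn : 9 < ∑ i, r i) (c : Fin s → k) (a : (i : Fin s) → Fin (r i) → k) (h : Generic c a) :
    Tendsto (fun m : ℕ => (leastDegree c a m : ℝ) / m) atTop (𝓝 (Real.sqrt (∑ i, (r i : ℝ)))) ∧
      (∀ m : ℕ, 0 < m → m * Real.sqrt (∑ i, (r i : ℝ)) < leastDegree c a m ∧
        leastDegree c a m ≤ (m + 1) * Real.sqrt (∑ i, (r i : ℝ))) ∧
      ∀ (w : Fin s → ℕ) (d : ℕ) (P : MvPolynomial (Fin 3) k), (∃ i, 0 < w i) →
        P.IsHomogeneous d → P ≠ 0 → (∀ i, affine P ∈ cluster (r i) (w i) (c i) (a i)) →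
          ∑ i, (r i : ℝ) * w i < d * Real.sqrt (∑ i, (r i : ℝ)) := by
  have e1 : (∑ i, (r i : ℝ)) = ((∑ i, r i : ℕ) : ℝ) := by push_cast; rfl
  rw [e1]
  refine ⟨Pool.Agent.Y939.SC.tendsto_ldeg hr hn.le h, fun m hm => ⟨?_, ?_⟩, ?_⟩
  · rw [mul_comm]
    exact Pool.Agent.Y939.SC.lt_ldeg hr hn h hm
  · rw [mul_comm]
    exact Pool.Agent.Y939.SC.ldeg_le m
  · intro w d P hw hP hne hI
    by_contra hcon
    rw [not_lt] at hcon
    have e2 : (∑ i, (r i : ℝ) * w i) = ((∑ i, r i * w i : ℕ) : ℝ) := by push_cast; rfl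
    rw [e2, mul_comm] at hcon
    exact Pool.Agent.Y939.SC.not_noForm_iff.2 ⟨P, hP, hne, hI⟩
      (Pool.Agent.Y939.SC.noForm_generic hr h hw (Or.inr ⟨hn, hcon⟩))

end Pool.Agent.Results.MP_d0dfcd_ag.GenericClusters
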